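import Pool.Agent.helper78.EQ.Spec

set_option autoImplicit false

open Complex MeasureTheory Set Metric

namespace Pool.Agent.EQ

open Pool.Agent.helper6.LD

theorem helper79_re (σ r : ℝ) (hσ : 0 < σ) (hr : 0 < r) :
    IntegrableOn (fun x : ℝ => Real.exp (-(r / x)) * x ^ (-σ - 1)) (Ioi 0) ∧
    ∫ x in Ioi (0 : ℝ), Real.exp (-(r / x)) * x ^ (-σ - 1) = (1 / r) ^ σ * Real.Gamma σ := by
  have h1 := Real.integral_rpow_mul_exp_neg_mul_Ioi hσ hr
  have h2 : IntegrableOn (fun t : ℝ => t ^ (σ - 1) * Real.exp (-(r * t))) (Ioi 0) := by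
    refine Integrable.of_integral_ne_zero ?_
    rw [h1]
    have := Real.Gamma_pos_of_pos hσ
    positivity
  have h3 : ∀ x ∈ Ioi (0 : ℝ), (|(-1 : ℝ)| * x ^ ((-1 : ℝ) - 1)) •
      ((x ^ (-1 : ℝ)) ^ (σ - 1) * Real.exp (-(r * x ^ (-1 : ℝ)))) =
      Real.exp (-(r / x)) * x ^ (-σ - 1) := by
    intro x hx
    rw [mem_Ioi] at hx
    rw [abs_neg, abs_one, one_mul, smul_eq_mul, ← Real.rpow_mul hx.le, ← mul_assoc,
      ← Real.rpow_add hx, mul_comm]
    rw [Real.rpow_neg_one x, ← div_eq_mul_inv]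
    congr 2
    ring
  constructor
  · have h4 := (integrableOn_Ioi_comp_rpow_iff _ (by norm_num : (-1 : ℝ) ≠ 0)).2 h2
    exact h4.congr_fun (fun x hx => h3 x hx) measurableSet_Ioi
  · have h4 := integral_comp_rpow_Ioi (fun t : ℝ => t ^ (σ - 1) * Real.exp (-(r * t)))
      (by norm_num : (-1 : ℝ) ≠ 0)
    rw [← h1, ← h4]
    exact (setIntegral_congr_fun measurableSet_Ioi fun x hx => h3 x hx).symm

theorem helper79_co (w : ℂ) (r : ℝ) (hw : 0 < w.re) (hr : 0 < r) :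
    IntegrableOn (fun x : ℝ => ((Real.exp (-(r / x)) : ℝ) : ℂ) * (x : ℂ) ^ (-w - 1)) (Ioi 0) ∧
    ∫ x in Ioi (0 : ℝ), ((Real.exp (-(r / x)) : ℝ) : ℂ) * (x : ℂ) ^ (-w - 1) =
      (1 / (r : ℂ)) ^ w * Complex.Gamma w := by
  have h1 := Complex.integral_cpow_mul_exp_neg_mul_Ioi hw hr
  have h2 : IntegrableOn (fun t : ℝ => (t : ℂ) ^ (w - 1) * Complex.exp (-((r : ℂ) * t)))
      (Ioi 0) := by
    refine Integrable.of_integral_ne_zero ?_
    rw [h1]
    refine mul_ne_zero ?_ (Complex.Gamma_ne_zero_of_re_pos hw)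
    rw [Complex.cpow_ne_zero_iff]
    left
    have : (r : ℂ) ≠ 0 := by exact_mod_cast hr.ne'
    exact one_div_ne_zero this
  have h3 : ∀ x ∈ Ioi (0 : ℝ), (|(-1 : ℝ)| * x ^ ((-1 : ℝ) - 1)) •
      (((x ^ (-1 : ℝ) : ℝ) : ℂ) ^ (w - 1) * Complex.exp (-((r : ℂ) * ((x ^ (-1 : ℝ) : ℝ) : ℂ)))) =
      ((Real.exp (-(r / x)) : ℝ) : ℂ) * (x : ℂ) ^ (-w - 1) := by
    intro x hx
    rw [mem_Ioi] at hx
    have hx0 : (x : ℂ) ≠ 0 := by exact_mod_cast hx.ne'
    rw [abs_neg, abs_one, one_mul, Complex.real_smul, Complex.ofReal_cpow hx.le,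
      Real.rpow_neg_one x, Complex.ofReal_inv, ← Complex.ofReal_inv,
      Complex.ofReal_inv, Complex.inv_cpow_ofReal_nonneg hx.le, ← Complex.cpow_neg, ← mul_assoc,
      ← Complex.cpow_add _ _ hx0, mul_comm]
    congr 1
    · push_cast
      rw [div_eq_mul_inv]
    · congr 1
      push_cast
      ring
  constructor
  · have h4 := (integrableOn_Ioi_comp_rpow_iff _ (by norm_num : (-1 : ℝ) ≠ 0)).2 h2
    exact h4.congr_fun (fun x hx => h3 x hx) measurableSet_Ioi
  · have h4 := integral_comp_rpow_Ioi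
      (fun t : ℝ => (t : ℂ) ^ (w - 1) * Complex.exp (-((r : ℂ) * t)))
      (by norm_num : (-1 : ℝ) ≠ 0)
    rw [← h1, ← h4]
    exact (setIntegral_congr_fun measurableSet_Ioi fun x hx => h3 x hx).symm

theorem helper79_sum (x : ℝ) (hx : 1 ≤ x) :
    Summable (fun n : ℕ => Real.sqrt n * Real.exp (-((n : ℝ) / x))) ∧
    ∑' n : ℕ, Real.sqrt n * Real.exp (-((n : ℝ) / x)) ≤ 3 * x ^ (3 / 2 : ℝ) := by
  have hx0 : 0 < x := by linarith
  obtain ⟨u, hu⟩ : ∃ u, u = 1 / (2 * x) := ⟨_, rfl⟩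
  have hu0 : 0 < u := by rw [hu]; positivity
  have hu1 : u ≤ 1 / 2 := by
    rw [hu, div_le_div_iff₀ (by positivity) (by norm_num)]
    linarith
  obtain ⟨q, hq⟩ : ∃ q, q = Real.exp (-u) := ⟨_, rfl⟩
  have hq0 : 0 ≤ q := by rw [hq]; exact (Real.exp_pos _).le
  have hq2 : q * (1 + u) ≤ 1 := by
    have h1 := Real.add_one_le_exp u
    rw [hq, Real.exp_neg]
    rw [inv_mul_le_iff₀ (Real.exp_pos _)]
    linarith
  have hq3 : 1 / (3 * x) ≤ 1 - q := by
    have h1 : 1 / (3 * x) = 2 / 3 * u := by rw [hu]; field_simp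
    rw [h1]
    nlinarith
  have hq1 : q < 1 := by
    have : 0 < 1 / (3 * x) := by positivity
    linarith
  have hpt : ∀ n : ℕ, Real.sqrt n * Real.exp (-((n : ℝ) / x)) ≤ Real.sqrt x * q ^ n := by
    intro n
    have h1 : Real.sqrt n ≤ Real.sqrt x * Real.exp (n * u) := by
      have h2 : (n : ℝ) ≤ x * Real.exp ((n : ℝ) / x) := by
        have h3 := Real.add_one_le_exp ((n : ℝ) / x)
        have h4 : (n : ℝ) = x * ((n : ℝ) / x) := by field_simp
        nlinarith
      have h3 : Real.exp (n * u) = Real.sqrt (Real.exp ((n : ℝ) / x)) := by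
        rw [Real.sqrt_eq_rpow, ← Real.exp_mul]
        congr 1
        rw [hu]
        field_simp
      rw [h3, ← Real.sqrt_mul hx0.le]
      exact Real.sqrt_le_sqrt h2
    have h5 : q ^ n = Real.exp (n * u) * Real.exp (-((n : ℝ) / x)) := by
      rw [hq, ← Real.exp_nat_mul, ← Real.exp_add]
      congr 1
      rw [hu]
      field_simp
      ring
    rw [h5, ← mul_assoc]
    exact mul_le_mul_of_nonneg_right h1 (Real.exp_pos _).le
  have hg : Summable (fun n : ℕ => Real.sqrt x * q ^ n) :=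
    (summable_geometric_of_lt_one hq0 hq1).mul_left _
  have hs : Summable (fun n : ℕ => Real.sqrt n * Real.exp (-((n : ℝ) / x))) :=
    hg.of_nonneg_of_le (fun n => by positivity) hpt
  refine ⟨hs, (hs.tsum_le_tsum hpt hg).trans ?_⟩
  rw [tsum_mul_left, tsum_geometric_of_lt_one hq0 hq1]
  have h6 : (1 - q)⁻¹ ≤ 3 * x := by
    rw [inv_le_comm₀ (by linarith) (by positivity)]
    simpa using hq3
  calc Real.sqrt x * (1 - q)⁻¹ ≤ Real.sqrt x * (3 * x) :=
        mul_le_mul_of_nonneg_left h6 (Real.sqrt_nonneg _)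
    _ = 3 * (x ^ (1 / 2 : ℝ) * x ^ (1 : ℝ)) := by
        rw [Real.sqrt_eq_rpow, Real.rpow_one]
        ring
    _ = 3 * x ^ (3 / 2 : ℝ) := by
        rw [← Real.rpow_add hx0]
        norm_num

theorem helper79_nt (a : ℕ → ℂ) (ha : ∀ n : ℕ, ‖a n‖ ≤ Real.sqrt n) (t x : ℝ) (n : ℕ) :
    ‖a n * ((Real.exp (-((n : ℝ) / x)) : ℝ) : ℂ) * (n : ℂ) ^ (-((t : ℂ) * I))‖ ≤
      Real.sqrt n * Real.exp (-((n : ℝ) / x)) := by
  rcases Nat.eq_zero_or_pos n with hn | hn
  · subst hn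
    have h1 : a 0 = 0 := by
      have := ha 0
      simpa using this
    rw [h1]
    simp
  · rw [norm_mul, norm_mul, Complex.norm_natCast_cpow_of_pos hn, Complex.norm_real,
      Real.norm_of_nonneg (Real.exp_pos _).le]
    have h2 : (-((t : ℂ) * I)).re = 0 := by simp
    rw [h2, Real.rpow_zero, mul_one]
    exact mul_le_mul_of_nonneg_right (ha n) (Real.exp_pos _).le

theorem helper79_S (a : ℕ → ℂ) (ha : ∀ n : ℕ, ‖a n‖ ≤ Real.sqrt n) (t x : ℝ) (hx : 1 ≤ x) :
    ‖S a x t‖ ≤ 3 * x ^ (3 / 2 : ℝ) := by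
  obtain ⟨h1, h2⟩ := helper79_sum x hx
  unfold S
  exact (tsum_of_norm_bounded h1.hasSum (helper79_nt a ha t x)).trans h2

/-- integral and sum -/
theorem helper79_full (a : ℕ → ℂ) (ha : ∀ n : ℕ, ‖a n‖ ≤ Real.sqrt n) (t : ℝ) (w : ℂ)
    (hw : 2 ≤ w.re) : ∃ F : ℕ → ℝ → ℂ, (∀ n, IntegrableOn (F n) (Ioi 0)) ∧
    (∀ A : Set ℝ, A ⊆ Ioi 0 → MeasurableSet A → HasSum (fun n => ∫ x in A, F n x)
      (∫ x in A, S a x t * (x : ℂ) ^ (-w - 1))) ∧
    ∫ x in Ioi (0 : ℝ), S a x t * (x : ℂ) ^ (-w - 1) = Complex.Gamma w * Ds a (w + t * I) := by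
  have ha0 : a 0 = 0 := by
    have := ha 0
    simpa using this
  obtain ⟨F, hF⟩ : ∃ F : ℕ → ℝ → ℂ, F = fun n x => (a n * (n : ℂ) ^ (-((t : ℂ) * I))) *
    (((Real.exp (-((n : ℝ) / x)) : ℝ) : ℂ) * (x : ℂ) ^ (-w - 1)) := ⟨_, rfl⟩
  have hFi : ∀ n, Integrable (F n) (volume.restrict (Ioi 0)) := by
    intro n
    rcases Nat.eq_zero_or_pos n with hn | hn
    · rw [hF, hn]
      simp only [ha0, zero_mul]
      exact integrable_zero _ _ _
    · rw [hF]
      exact (helper79_co w n (by linarith) (by exact_mod_cast hn)).1.const_mul _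
  have hFv : ∀ n : ℕ, ∫ x in Ioi (0 : ℝ), F n x =
      Complex.Gamma w * (a n * (n : ℂ) ^ (-(w + t * I))) := by
    intro n
    rw [hF]
    simp only
    rcases Nat.eq_zero_or_pos n with hn | hn
    · rw [hn]
      simp [ha0]
    · rw [integral_const_mul, (helper79_co w n (by linarith) (by exact_mod_cast hn)).2]
      have hn0 : (n : ℂ) ≠ 0 := by exact_mod_cast hn.ne'
      have e1 : (1 / ((n : ℝ) : ℂ)) ^ w = (n : ℂ) ^ (-w) := by
        rw [one_div, Complex.inv_cpow_ofReal_nonneg (Nat.cast_nonneg n), Complex.cpow_neg,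
          Complex.ofReal_natCast]
      have e2 : (n : ℂ) ^ (-(w + t * I)) = (n : ℂ) ^ (-w) * (n : ℂ) ^ (-((t : ℂ) * I)) := by
        rw [← Complex.cpow_add _ _ hn0]
        congr 1
        ring
      rw [e1, e2]
      ring
  have hFn : ∀ n : ℕ, ∫ x in Ioi (0 : ℝ), ‖F n x‖ ≤
      Real.Gamma w.re * (n : ℝ) ^ (-(3 / 2 : ℝ)) := by
    intro n
    have hG : 0 < Real.Gamma w.re := Real.Gamma_pos_of_pos (by linarith)
    rcases Nat.eq_zero_or_pos n with hn | hn
    · rw [hF, hn]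
      simp only [ha0, zero_mul, norm_zero, integral_zero]
      positivity
    · have hnr : (0 : ℝ) < n := by exact_mod_cast hn
      have hn1 : (1 : ℝ) ≤ n := by exact_mod_cast hn
      obtain ⟨r1, r2⟩ := helper79_re w.re n (by linarith) hnr
      have h1 : ∫ x in Ioi (0 : ℝ), ‖F n x‖ ≤ ∫ x in Ioi (0 : ℝ), Real.sqrt n *
          (Real.exp (-((n : ℝ) / x)) * x ^ (-w.re - 1)) := by
        refine setIntegral_mono_on (hFi n).norm (r1.const_mul _) measurableSet_Ioi fun x hx => ?_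
        rw [mem_Ioi] at hx
        rw [hF]
        simp only
        rw [norm_mul, norm_mul, norm_mul, Complex.norm_natCast_cpow_of_pos hn, Complex.norm_real,
          Real.norm_of_nonneg (Real.exp_pos _).le, Complex.norm_cpow_eq_rpow_re_of_pos hx]
        have h2 : (-((t : ℂ) * I)).re = 0 := by simp
        have h3 : (-w - 1).re = -w.re - 1 := by simp
        rw [h2, h3, Real.rpow_zero, mul_one]
        exact mul_le_mul_of_nonneg_right (ha n)
          (mul_nonneg (Real.exp_pos _).le (Real.rpow_nonneg hx.le _))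
      refine h1.trans ?_
      rw [integral_const_mul, r2]
      have h4 : Real.sqrt n * (1 / (n : ℝ)) ^ w.re ≤ (n : ℝ) ^ (-(3 / 2 : ℝ)) := by
        rw [one_div, Real.inv_rpow hnr.le, ← Real.rpow_neg hnr.le, Real.sqrt_eq_rpow,
          ← Real.rpow_add hnr]
        exact Real.rpow_le_rpow_of_exponent_le hn1 (by linarith)
      calc Real.sqrt n * ((1 / (n : ℝ)) ^ w.re * Real.Gamma w.re)
          = Real.Gamma w.re * (Real.sqrt n * (1 / (n : ℝ)) ^ w.re) := by ring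
        _ ≤ _ := mul_le_mul_of_nonneg_left h4 hG.le
  have hsum : Summable (fun n : ℕ => ∫ x in Ioi (0 : ℝ), ‖F n x‖) := by
    refine Summable.of_nonneg_of_le (fun n => integral_nonneg fun _ => norm_nonneg _) hFn ?_
    exact (Real.summable_nat_rpow.2 (by norm_num)).mul_left _
  have hST : ∀ x : ℝ, S a x t * (x : ℂ) ^ (-w - 1) = ∑' n : ℕ, F n x := by
    intro x
    unfold S
    rw [← tsum_mul_right]
    refine tsum_congr fun n => ?_
    rw [hF]
    ring
  refine ⟨F, hFi, ?_, ?_⟩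
  · intro A hA hAm
    have h1 : ∀ n, Integrable (F n) (volume.restrict A) := fun n => IntegrableOn.mono_set (hFi n) hA
    have h2 : Summable (fun n : ℕ => ∫ x in A, ‖F n x‖) := by
      refine Summable.of_nonneg_of_le (fun n => integral_nonneg fun _ => norm_nonneg _)
        (fun n => ?_) hsum
      exact setIntegral_mono_set (hFi n).norm (Filter.Eventually.of_forall fun _ => norm_nonneg _)
        (Filter.Eventually.of_forall hA)
    have h3 := hasSum_integral_of_summable_integral_norm h1 h2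
    rw [← integral_congr_ae (Filter.Eventually.of_forall fun x => hST x)] at h3
    exact h3
  · have h8 := (hasSum_integral_of_summable_integral_norm hFi hsum).tsum_eq
    rw [integral_congr_ae (Filter.Eventually.of_forall fun x => hST x), ← h8,
      tsum_congr hFv, tsum_mul_left]
    rfl

theorem GFM : GFM_stmt := by
  refine ⟨6, by norm_num, ?_⟩
  intro a N t w ha hN hw _
  obtain ⟨F, hFi, hF, h2⟩ := helper79_full a ha t w hw
  have hN0 : (0 : ℝ) < N := by linarith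
  have h3 : ∫ x in Ioi (0 : ℝ), S a x t * (x : ℂ) ^ (-w - 1) =
      (∫ x in Ioc (0 : ℝ) N, S a x t * (x : ℂ) ^ (-w - 1)) +
        ∫ x in Ioi N, S a x t * (x : ℂ) ^ (-w - 1) := by
    have e0 := hF (Ioi 0) subset_rfl measurableSet_Ioi
    have e1 := hF (Ioc 0 N) Ioc_subset_Ioi_self measurableSet_Ioc
    have e2 := hF (Ioi N) (Ioi_subset_Ioi hN0.le) measurableSet_Ioi
    have e3 := e1.add e2
    have e4 : ∀ n, (∫ x in Ioc (0 : ℝ) N, F n x) + ∫ x in Ioi N, F n x =
        ∫ x in Ioi (0 : ℝ), F n x := by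
      intro n
      rw [← Ioc_union_Ioi_eq_Ioi hN0.le]
      exact (setIntegral_union Ioc_disjoint_Ioi_same measurableSet_Ioi
        ((hFi n).mono_set Ioc_subset_Ioi_self)
        ((hFi n).mono_set (Ioi_subset_Ioi hN0.le))).symm
    simp only [e4] at e3
    exact e0.unique e3
  have h4 : Gf a N t w - Complex.Gamma w * Ds a (w + t * I) =
      -∫ x in Ioi N, S a x t * (x : ℂ) ^ (-w - 1) := by
    rw [← h2, h3]
    unfold Gf
    ring
  rw [h4, norm_neg]
  have h5 : IntegrableOn (fun x : ℝ => 3 * x ^ (-(3 / 2) : ℝ)) (Ioi N) :=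
    (integrableOn_Ioi_rpow_of_lt (by norm_num) hN0).const_mul _
  have h6 : ‖∫ x in Ioi N, S a x t * (x : ℂ) ^ (-w - 1)‖ ≤
      ∫ x in Ioi N, 3 * x ^ (-(3 / 2) : ℝ) := by
    refine norm_integral_le_of_norm_le h5 ?_
    refine (ae_restrict_mem measurableSet_Ioi).mono fun x hx => ?_
    rw [mem_Ioi] at hx
    have hx1 : 1 ≤ x := by linarith
    have hx0 : 0 < x := by linarith
    rw [norm_mul, Complex.norm_cpow_eq_rpow_re_of_pos hx0]
    have e3 : (-w - 1).re = -w.re - 1 := by simp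
    rw [e3]
    have e4 : x ^ (-w.re - 1) ≤ x ^ (-3 : ℝ) :=
      Real.rpow_le_rpow_of_exponent_le hx1 (by linarith)
    calc ‖S a x t‖ * x ^ (-w.re - 1) ≤ (3 * x ^ (3 / 2 : ℝ)) * x ^ (-3 : ℝ) :=
          mul_le_mul (helper79_S a ha t x hx1) e4 (Real.rpow_nonneg hx0.le _)
            (by positivity)
      _ = 3 * x ^ (-(3 / 2) : ℝ) := by
          rw [mul_assoc, ← Real.rpow_add hx0]
          norm_num
  refine h6.trans (le_of_eq ?_)
  rw [integral_const_mul, integral_Ioi_rpow_of_lt (by norm_num) hN0]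
  norm_num
  ring

end Pool.Agent.EQ
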